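import Pool.Agent.U481.GL.Stm

/-!
# Package NB of project GL: the weights of the inequality for `g_λ^*` are in `B_{λp/2}`
-/

set_option autoImplicit false

open MeasureTheory Filter Topology Set
open scoped ENNReal NNReal Real

namespace Pool.Agent.U669.GL.NB

open Pool.Agent.U481.HW Pool.Agent.U481.GL

/-- the test function -/
noncomputable def tf (a b : ℝ) : ℝ → ℂ := (Ioo a b).indicator fun _ => (1 : ℂ)

theorem kz_upper {L s y : ℝ} (hL : 0 < L) (hs1 : L ≤ s) (hs2 : s ≤ 3 * L) (hy1 : L ≤ y)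
    (hy2 : y ≤ 2 * L) : kz s y ≤ -(1 / (300 * L ^ 2)) := by
  have hs : 0 < s := by linarith
  have hy : 0 < y := by linarith
  have hpi := Real.pi_pos
  have hpi2 := Real.pi_lt_d2
  have h1 : s ^ 2 + y ^ 2 ≤ 13 * L ^ 2 := by nlinarith
  have h0 : 0 < s ^ 2 + y ^ 2 := by positivity
  have h2 : (s ^ 2 + y ^ 2) ^ 2 ≤ 169 * L ^ 4 := by
    calc (s ^ 2 + y ^ 2) ^ 2 ≤ (13 * L ^ 2) ^ 2 := by gcongr
      _ = 169 * L ^ 4 := by ring
  have h3 : L ^ 2 ≤ s * y := by nlinarith
  unfold kz
  rw [neg_div, neg_le_neg_iff, div_le_div_iff₀ (by positivity) (by positivity)]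
  have h4 : π * (s ^ 2 + y ^ 2) ^ 2 ≤ 3.15 * (169 * L ^ 4) := by
    gcongr
  have h5 : (2 * L ^ 2) * (300 * L ^ 2) ≤ 2 * s * y * (300 * L ^ 2) :=
    mul_le_mul_of_nonneg_right (by nlinarith) (by positivity)
  have h6 : 0 < L ^ 4 := by positivity
  nlinarith

theorem kz_cont (z : ℝ) {y : ℝ} (hy : 0 < y) : Continuous fun t : ℝ => kz (z - t) y := by
  unfold kz
  have hpi := Real.pi_pos
  refine Continuous.div (by fun_prop) (by fun_prop) fun t => ?_
  have : 0 < (z - t) ^ 2 + y ^ 2 := by positivity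
  positivity

theorem gz_lower {a b z y : ℝ} (hab : a < b) (hz1 : b + (b - a) < z) (hz2 : z < b + 2 * (b - a))
    (hy1 : b - a < y) (hy2 : y < 2 * (b - a)) : 1 / (300 * (b - a)) ≤ ‖Gz (tf a b) (z, y)‖ := by
  have hL : 0 < b - a := by linarith
  have hy : 0 < y := by linarith
  have e1 : Gz (tf a b) (z, y) = ((∫ t in Ioo a b, kz (z - t) y : ℝ) : ℂ) := by
    rw [← integral_complex_ofReal, ← integral_indicator measurableSet_Ioo]
    unfold Gz tf
    refine integral_congr_ae (ae_of_all _ fun t => ?_)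
    by_cases ht : t ∈ Ioo a b
    · simp [ht]
    · simp [ht]
  have hint : IntegrableOn (fun t : ℝ => kz (z - t) y) (Ioo a b) :=
    ((kz_cont z hy).integrableOn_Icc).mono_set Ioo_subset_Icc_self
  have e2 : (∫ t in Ioo a b, kz (z - t) y) ≤ ∫ _ in Ioo a b, -(1 / (300 * (b - a) ^ 2)) := by
    refine setIntegral_mono_on hint (integrableOn_const (by simp)) measurableSet_Ioo fun t ht => ?_
    exact kz_upper hL (by linarith [ht.2]) (by linarith [ht.1]) hy1.le hy2.le
  have e3 : (∫ _ in Ioo a b, -(1 / (300 * (b - a) ^ 2))) = -(1 / (300 * (b - a))) := by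
    rw [setIntegral_const]
    simp only [measureReal_def, Real.volume_Ioo, ENNReal.toReal_ofReal hL.le, smul_eq_mul]
    field_simp
  rw [e1, Complex.norm_real, Real.norm_eq_abs]
  rw [e3] at e2
  have := neg_le_abs (∫ t in Ioo a b, kz (z - t) y)
  linarith

theorem tf_int (a b : ℝ) : Integrable (fun x => tf a b x / ((1 + x ^ 2 : ℝ) : ℂ)) := by
  have h1 : (fun x => tf a b x / ((1 + x ^ 2 : ℝ) : ℂ)) =
      (Ioo a b).indicator fun x : ℝ => (1 : ℂ) / ((1 + x ^ 2 : ℝ) : ℂ) := by
    funext x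
    unfold tf
    by_cases hx : x ∈ Ioo a b
    · simp [hx]
    · simp [hx]
  rw [h1, integrable_indicator_iff measurableSet_Ioo]
  have h2 : Continuous fun x : ℝ => (1 : ℂ) / ((1 + x ^ 2 : ℝ) : ℂ) := by
    refine Continuous.div (by fun_prop) (by fun_prop) fun x => ?_
    have : (0 : ℝ) < 1 + x ^ 2 := by positivity
    exact_mod_cast this.ne'
  exact (h2.integrableOn_Icc).mono_set Ioo_subset_Icc_self

theorem tf_norm {a b p : ℝ} (hp : 0 < p) (U : ℝ → ℝ≥0) :
    (∫⁻ x, ‖tf a b x‖ₑ ^ p * (U x : ℝ≥0∞)) = ∫⁻ x in Ioo a b, (U x : ℝ≥0∞) := by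
  rw [← lintegral_indicator measurableSet_Ioo]
  refine lintegral_congr fun x => ?_
  unfold tf
  by_cases hx : x ∈ Ioo a b
  · simp [hx]
  · simp [hx, hp]

/-- lower bound of `g_λ^*` of the test function -/
theorem gs_lower (h : S_drv) {l a b : ℝ} (hl : 0 < l) (hab : a < b) (x : ℝ) :
    ENNReal.ofReal ((((b - a) / (|x - (a + b) / 2| + 5 * (b - a))) ^ l) * (1 / 300) ^ 2) ≤
      ∫⁻ q in {q : ℝ × ℝ | 0 < q.2}, ENNReal.ofReal ((q.2 / (|x - q.1| + q.2)) ^ l) *
        gr (tf a b) q := by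
  set L : ℝ := b - a with hLdef
  have hL : 0 < L := by linarith
  set Q : Set (ℝ × ℝ) := Ioo (b + L) (b + 2 * L) ×ˢ Ioo L (2 * L) with hQ
  have hQs : Q ⊆ {q : ℝ × ℝ | 0 < q.2} := by
    rintro ⟨z, y⟩ hq
    have := (mem_prod.1 hq).2.1
    exact hL.trans this
  have hvol : volume Q = ENNReal.ofReal (L ^ 2) := by
    rw [hQ, Measure.volume_eq_prod, Measure.prod_prod, Real.volume_Ioo, Real.volume_Ioo,
      ← ENNReal.ofReal_mul (by linarith)]
    congr 1
    ring
  set m : ℝ := (L / (|x - (a + b) / 2| + 5 * L)) ^ l with hm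
  have hm0 : 0 ≤ m := by positivity
  have hmeas : MeasurableSet Q := measurableSet_Ioo.prod measurableSet_Ioo
  calc ENNReal.ofReal (m * (1 / 300) ^ 2)
      = ENNReal.ofReal (m * (1 / (300 * L)) ^ 2) * volume Q := by
        rw [hvol, ← ENNReal.ofReal_mul (by positivity)]
        congr 1
        field_simp
    _ = ∫⁻ _ in Q, ENNReal.ofReal (m * (1 / (300 * L)) ^ 2) := by
        rw [setLIntegral_const]
    _ ≤ ∫⁻ q in Q, ENNReal.ofReal ((q.2 / (|x - q.1| + q.2)) ^ l) * gr (tf a b) q := by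
        refine setLIntegral_mono' hmeas ?_
        rintro ⟨z, y⟩ hq
        obtain ⟨⟨hz1, hz2⟩, ⟨hy1, hy2⟩⟩ := mem_prod.1 hq
        simp only at hz1 hz2 hy1 hy2 ⊢
        have hy : 0 < y := by linarith
        rw [ENNReal.ofReal_mul hm0]
        have hg : ENNReal.ofReal ((1 / (300 * L)) ^ 2) ≤ gr (tf a b) (z, y) := by
          rw [h _ (tf_int a b) (z, y) hy]
          unfold G2
          refine le_trans ?_ le_self_add
          rw [ENNReal.ofReal_pow (by positivity)]
          gcongr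
          rw [← ofReal_norm]
          exact ENNReal.ofReal_le_ofReal (gz_lower hab hz1 hz2 hy1 hy2)
        have hw : m ≤ (y / (|x - z| + y)) ^ l := by
          rw [hm]
          refine Real.rpow_le_rpow (by positivity) ?_ hl.le
          have h1 : |x - z| ≤ |x - (a + b) / 2| + 5 / 2 * L := by
            have e : x - z = (x - (a + b) / 2) + ((a + b) / 2 - z) := by ring
            have h2 : |(a + b) / 2 - z| ≤ 5 / 2 * L := by
              rw [abs_le]
              constructor <;> linarith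
            calc |x - z| = |(x - (a + b) / 2) + ((a + b) / 2 - z)| := by rw [← e]
              _ ≤ |x - (a + b) / 2| + |(a + b) / 2 - z| := abs_add_le _ _
              _ ≤ _ := by linarith
          have h3 : 0 ≤ |x - (a + b) / 2| := abs_nonneg _
          have h4 : 0 ≤ |x - z| := abs_nonneg _
          rw [div_le_div_iff₀ (by positivity) (by positivity)]
          nlinarith
        gcongr
    _ ≤ ∫⁻ q in {q : ℝ × ℝ | 0 < q.2}, ENNReal.ofReal ((q.2 / (|x - q.1| + q.2)) ^ l) *
        gr (tf a b) q := lintegral_mono_set hQs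

theorem kern {r L s : ℝ} (hr : 0 < r) (hL : 0 < L) (hs : 0 ≤ s) :
    L ^ (r - 1) / (L ^ r + s ^ r) ≤ 6 ^ r * (1 / L) * (L / (s + 5 * L)) ^ r := by
  have h1 : (s + 5 * L) ^ r ≤ 6 ^ r * (L ^ r + s ^ r) := by
    have h2 : s + 5 * L ≤ 6 * max s L := by
      have := le_max_left s L
      have := le_max_right s L
      linarith
    have h3 : max s L ^ r ≤ L ^ r + s ^ r := by
      rcases max_choice s L with h | h
      · rw [h]
        have : 0 ≤ L ^ r := by positivity
        linarith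
      · rw [h]
        have : 0 ≤ s ^ r := by positivity
        linarith
    calc (s + 5 * L) ^ r ≤ (6 * max s L) ^ r := Real.rpow_le_rpow (by positivity) h2 hr.le
      _ = 6 ^ r * max s L ^ r := Real.mul_rpow (by norm_num) (le_max_of_le_right hL.le)
      _ ≤ _ := by gcongr
  have h4 : 0 < (s + 5 * L) ^ r := by positivity
  have h5 : 0 < L ^ r + s ^ r := by positivity
  rw [Real.div_rpow hL.le (by positivity), Real.rpow_sub_one hL.ne', div_div,
    show 6 ^ r * (1 / L) * (L ^ r / (s + 5 * L) ^ r) = (6 ^ r * L ^ r) / (L * (s + 5 * L) ^ r) by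
      field_simp, div_le_div_iff₀ (by positivity) (by positivity)]
  calc L ^ r * (L * (s + 5 * L) ^ r) ≤ L ^ r * (L * (6 ^ r * (L ^ r + s ^ r))) := by gcongr
    _ = _ := by ring

theorem main (h : S_drv) : S_nb := by
  intro l p hl hp U hU hG
  obtain ⟨C, hC, hG⟩ := hG
  have hr : 0 < l * p / 2 := by positivity
  refine ⟨ENNReal.ofReal (6 ^ (l * p / 2) * 300 ^ p) * C, ENNReal.mul_lt_top ENNReal.ofReal_lt_top hC,
    fun a b hab => ?_⟩
  have hL : 0 < b - a := by linarith
  have h1 := hG (tf a b) (tf_int a b) (by rw [tf_norm (by linarith)]; exact hU.fin a b)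
  rw [tf_norm (by linarith)] at h1
  have hpt : ∀ x, ENNReal.ofReal ((b - a) ^ (l * p / 2 - 1) / ((b - a) ^ (l * p / 2) +
      |x - (a + b) / 2| ^ (l * p / 2))) ≤
      ENNReal.ofReal (6 ^ (l * p / 2) * 300 ^ p) * ENNReal.ofReal (1 / (b - a)) *
        (gstar l (tf a b) x) ^ p := by
    intro x
    have h2 := gs_lower h (l := l) (by linarith) hab x
    have h3 : ENNReal.ofReal (((b - a) / (|x - (a + b) / 2| + 5 * (b - a))) ^ (l * p / 2) *
        (1 / 300) ^ p) ≤ (gstar l (tf a b) x) ^ p := by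
      unfold gstar GS
      rw [← ENNReal.rpow_mul]
      refine le_trans (le_of_eq ?_) (ENNReal.rpow_le_rpow h2 (by positivity))
      rw [ENNReal.ofReal_rpow_of_nonneg (by positivity) (by positivity)]
      congr 1
      rw [Real.mul_rpow (by positivity) (by positivity), ← Real.rpow_mul (by positivity),
        ← Real.rpow_natCast (1 / 300 : ℝ) 2, ← Real.rpow_mul (by positivity)]
      congr 2
      · ring
      · push_cast; ring
    refine le_trans ?_ (mul_le_mul_right h3 _)
    rw [← ENNReal.ofReal_mul (by positivity), ← ENNReal.ofReal_mul (by positivity)]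
    apply ENNReal.ofReal_le_ofReal
    have h4 := kern hr hL (abs_nonneg (x - (a + b) / 2))
    have h5 : (300 : ℝ) ^ p * (1 / 300) ^ p = 1 := by
      rw [← Real.mul_rpow (by norm_num) (by norm_num)]
      norm_num
    calc _ ≤ _ := h4
      _ = (300 : ℝ) ^ p * (1 / 300) ^ p * (6 ^ (l * p / 2) * (1 / (b - a)) *
          ((b - a) / (|x - (a + b) / 2| + 5 * (b - a))) ^ (l * p / 2)) := by rw [h5, one_mul]
      _ = _ := by ring
  calc (∫⁻ x, ENNReal.ofReal ((b - a) ^ (l * p / 2 - 1) / ((b - a) ^ (l * p / 2) +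
        |x - (a + b) / 2| ^ (l * p / 2))) * (U x : ℝ≥0∞))
      ≤ ∫⁻ x, ENNReal.ofReal (6 ^ (l * p / 2) * 300 ^ p) * ENNReal.ofReal (1 / (b - a)) *
        ((gstar l (tf a b) x) ^ p * (U x : ℝ≥0∞)) := by
        refine lintegral_mono fun x => ?_
        rw [← mul_assoc]
        exact mul_le_mul_left (hpt x) _
    _ = ENNReal.ofReal (6 ^ (l * p / 2) * 300 ^ p) * ENNReal.ofReal (1 / (b - a)) *
        ∫⁻ x, (gstar l (tf a b) x) ^ p * (U x : ℝ≥0∞) := by
        rw [lintegral_const_mul' _ _ (ENNReal.mul_ne_top ENNReal.ofReal_ne_top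
          ENNReal.ofReal_ne_top)]
    _ ≤ ENNReal.ofReal (6 ^ (l * p / 2) * 300 ^ p) * ENNReal.ofReal (1 / (b - a)) *
        (C * ∫⁻ x in Ioo a b, (U x : ℝ≥0∞)) := by gcongr
    _ = _ := by ring

end Pool.Agent.U669.GL.NB
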